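import Mathlib

set_option autoImplicit false

open MeasureTheory Set

namespace Pool.Agent.Helper393.Flip

/-- Real L¹ of the line. -/
abbrev L : Type := Lp ℝ 1 (volume : Measure ℝ)

/-- cumulative mass of `|g|` -/
noncomputable def G (g : L) (s : ℝ) : ℝ := ∫ x in Iic s, ‖g x‖

lemma int_norm (g : L) : Integrable (fun x => ‖g x‖) (volume : Measure ℝ) :=
  (L1.integrable_coeFn g).norm

lemma G_nonneg (g : L) (s : ℝ) : 0 ≤ G g s := integral_nonneg fun _ => norm_nonneg _

lemma G_le_norm (g : L) (s : ℝ) : G g s ≤ ‖g‖ := by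
  rw [L1.norm_eq_integral_norm]
  exact setIntegral_le_integral (int_norm g) (Filter.Eventually.of_forall fun _ => norm_nonneg _)

lemma G_mono (g : L) : Monotone (G g) := by
  intro s t hst
  exact setIntegral_mono_set (int_norm g).integrableOn
    (Filter.Eventually.of_forall fun _ => norm_nonneg _) (Iic_subset_Iic.2 hst).eventuallyLE

lemma G_meas (g : L) : Measurable (G g) := (G_mono g).measurable

lemma G_congr {g h : L} (H : ∀ᵐ x ∂(volume : Measure ℝ), ‖g x‖ = ‖h x‖) : G g = G h := by
  funext s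
  exact integral_congr_ae (ae_restrict_of_ae H)

lemma G_sub (g : L) {s t : ℝ} (hst : s ≤ t) : ∫ x in Icc s t, ‖g x‖ = G g t - G g s := by
  rw [integral_Icc_eq_integral_Ioc]
  unfold G
  rw [← Iic_union_Ioc_eq_Iic hst, setIntegral_union (Iic_disjoint_Ioc le_rfl) measurableSet_Ioc
    (int_norm g).integrableOn (int_norm g).integrableOn]
  ring

lemma G_diff (g h : L) (s : ℝ) : |G g s - G h s| ≤ ‖g - h‖ := by
  unfold G
  rw [← integral_sub (int_norm g).integrableOn (int_norm h).integrableOn]
  refine (abs_integral_le_integral_abs).trans ?_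
  rw [L1.norm_eq_integral_norm]
  have hsub : ∀ᵐ x ∂(volume : Measure ℝ), |‖g x‖ - ‖h x‖| ≤ ‖(g - h : L) x‖ := by
    filter_upwards [Lp.coeFn_sub g h] with x hx
    rw [hx]
    exact abs_norm_sub_norm_le _ _
  calc ∫ x in Iic s, |‖g x‖ - ‖h x‖| ≤ ∫ x in Iic s, ‖(g - h : L) x‖ := by
        refine integral_mono_ae ?_ (int_norm (g - h)).integrableOn (ae_restrict_of_ae hsub)
        exact ((int_norm g).integrableOn.sub (int_norm h).integrableOn).abs
    _ ≤ ∫ x, ‖(g - h : L) x‖ :=
        setIntegral_le_integral (int_norm (g - h))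
          (Filter.Eventually.of_forall fun _ => norm_nonneg _)

/-- mass of the window `{a < G ≤ b}` is at most `b - a`. -/
lemma mass_window (g : L) {a b : ℝ} (hab : a ≤ b) :
    ∫ x in {s | a < G g s ∧ G g s ≤ b}, ‖g x‖ ≤ b - a := by
  set J : Set ℝ := {s | a < G g s ∧ G g s ≤ b} with hJ
  have hJm : MeasurableSet J :=
    (measurableSet_lt measurable_const (G_meas g)).inter (measurableSet_le (G_meas g) measurable_const)
  set ν : Measure ℝ := (volume : Measure ℝ).withDensity (fun x => ENNReal.ofReal ‖g x‖) with hν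
  have hfin : IsFiniteMeasure ν := by
    refine ⟨?_⟩
    rw [hν, withDensity_apply _ MeasurableSet.univ, Measure.restrict_univ]
    exact (int_norm g).lintegral_lt_top
  have key : ∀ E : Set ℝ, MeasurableSet E → (ν E).toReal = ∫ x in E, ‖g x‖ := by
    intro E hE
    rw [hν, withDensity_apply _ hE,
      integral_eq_lintegral_of_nonneg_ae (Filter.Eventually.of_forall fun _ => norm_nonneg _)
        (int_norm g).integrableOn.aestronglyMeasurable]
  rw [← key J hJm]
  by_contra hcon
  push Not at hcon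
  set ε : ℝ := (ν J).toReal - (b - a) with hε
  have hεpos : 0 < ε := by rw [hε]; linarith
  obtain ⟨K, hKJ, hKc, hKlt⟩ := hJm.exists_isCompact_lt_add (μ := ν) (measure_ne_top ν J)
    (ε := ENNReal.ofReal ε) (by simpa using hεpos)
  have hKle : (ν K).toReal ≤ b - a := by
    rcases K.eq_empty_or_nonempty with rfl | hne
    · simp; exact hab
    · obtain ⟨s, hs⟩ := hKc.exists_isLeast hne
      obtain ⟨t, ht⟩ := hKc.exists_isGreatest hne
      have hst : s ≤ t := hs.2 ht.1
      have hsub : K ⊆ Icc s t := fun x hx => ⟨hs.2 hx, ht.2 hx⟩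
      calc (ν K).toReal ≤ (ν (Icc s t)).toReal :=
            ENNReal.toReal_mono (measure_ne_top _ _) (measure_mono hsub)
        _ = G g t - G g s := by rw [key _ measurableSet_Icc, G_sub g hst]
        _ ≤ b - a := by
            have h1 := (hKJ hs.1).1
            have h2 := (hKJ ht.1).2
            linarith
  have h3 : (ν J).toReal < (ν K).toReal + ε := by
    have := ENNReal.toReal_strict_mono (by finiteness) hKlt
    rwa [ENNReal.toReal_add (measure_ne_top _ _) (by finiteness), ENNReal.toReal_ofReal hεpos.le]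
      at this
  linarith

/-- sign flip on the initial portion of mass `a` -/
noncomputable def flipFun (g : L) (a : ℝ) (s : ℝ) : ℝ := if G g s ≤ a then - g s else g s

lemma flipFun_norm (g : L) (a s : ℝ) : ‖flipFun g a s‖ = ‖g s‖ := by
  unfold flipFun; split_ifs <;> simp

lemma flipFun_memLp (g : L) (a : ℝ) : MemLp (flipFun g a) 1 (volume : Measure ℝ) := by
  have hm : AEStronglyMeasurable (flipFun g a) (volume : Measure ℝ) := by
    have h0 : AEStronglyMeasurable (g : ℝ → ℝ) (volume : Measure ℝ) := Lp.aestronglyMeasurable g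
    have h1 : Measurable (fun s => if G g s ≤ a then (-1 : ℝ) else 1) :=
      Measurable.ite (measurableSet_le (G_meas g) measurable_const) measurable_const
        measurable_const
    have h2 : flipFun g a = fun s => (if G g s ≤ a then (-1 : ℝ) else 1) * g s := by
      funext s
      unfold flipFun
      split_ifs <;> simp
    rw [h2]
    exact h1.aestronglyMeasurable.mul h0
  exact (Lp.memLp g).of_le hm (Filter.Eventually.of_forall fun s => (flipFun_norm g a s).le)

/-- the partial sign flip as an element of `L¹` -/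
noncomputable def flip (g : L) (a : ℝ) : L := (flipFun_memLp g a).toLp _

lemma flip_coe (g : L) (a : ℝ) : ∀ᵐ s ∂(volume : Measure ℝ), flip g a s = flipFun g a s :=
  (flipFun_memLp g a).coeFn_toLp

lemma flip_abs (g : L) (a : ℝ) : ∀ᵐ s ∂(volume : Measure ℝ), ‖flip g a s‖ = ‖g s‖ := by
  filter_upwards [flip_coe g a] with s hs
  rw [hs, flipFun_norm]

lemma flip_norm (g : L) (a : ℝ) : ‖flip g a‖ = ‖g‖ := by
  rw [L1.norm_eq_integral_norm, L1.norm_eq_integral_norm]
  exact integral_congr_ae (flip_abs g a)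

lemma G_flip (g : L) (a : ℝ) : G (flip g a) = G g := G_congr (flip_abs g a)

lemma flip_flip (g : L) (a : ℝ) : flip (flip g a) a = g := by
  apply Lp.ext
  filter_upwards [flip_coe (flip g a) a, flip_coe g a] with s h1 h2
  rw [h1, flipFun, h2, G_flip, flipFun]
  split_ifs <;> simp

lemma flip_zero (g : L) {a : ℝ} (ha : a ≤ 0) : flip g a = g := by
  have h0 : ∫ x in {s | (-1 : ℝ) < G g s ∧ G g s ≤ 0}, ‖g x‖ ≤ 0 := by
    -- use windows (−ε, 0]
    refine le_of_forall_pos_le_add fun ε hε => ?_
    have hsub : {s | (-1 : ℝ) < G g s ∧ G g s ≤ 0} ⊆ {s | -ε < G g s ∧ G g s ≤ 0} := by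
      intro s hs
      exact ⟨lt_of_lt_of_le (by linarith) (G_nonneg g s), hs.2⟩
    have := mass_window g (a := -ε) (b := 0) (by linarith)
    calc _ ≤ ∫ x in {s | -ε < G g s ∧ G g s ≤ 0}, ‖g x‖ :=
          setIntegral_mono_set (int_norm g).integrableOn
            (Filter.Eventually.of_forall fun _ => norm_nonneg _) hsub.eventuallyLE
      _ ≤ 0 + ε := by linarith
  have hE : MeasurableSet {s | (-1 : ℝ) < G g s ∧ G g s ≤ 0} :=
    (measurableSet_lt measurable_const (G_meas g)).inter (measurableSet_le (G_meas g) measurable_const)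
  have h1 : ∫ x in {s | (-1 : ℝ) < G g s ∧ G g s ≤ 0}, ‖g x‖ = 0 :=
    le_antisymm h0 (integral_nonneg fun _ => norm_nonneg _)
  have h2 := (setIntegral_eq_zero_iff_of_nonneg_ae
    (Filter.Eventually.of_forall fun _ => norm_nonneg _) (int_norm g).integrableOn).1 h1
  have h3 := (ae_restrict_iff' hE).1 h2
  apply Lp.ext
  filter_upwards [flip_coe g a, h3] with s h4 h5
  rw [h4, flipFun]
  split_ifs with h6
  · have : ‖g s‖ = 0 := h5 ⟨lt_of_lt_of_le (by norm_num) (G_nonneg g s), h6.trans ha⟩
    have : g s = 0 := norm_eq_zero.1 this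
    rw [this]; simp
  · rfl

lemma flip_full (g : L) {a : ℝ} (ha : ‖g‖ ≤ a) : flip g a = -g := by
  apply Lp.ext
  filter_upwards [flip_coe g a, Lp.coeFn_neg g] with s h1 h2
  rw [h1, h2, flipFun, if_pos ((G_le_norm g s).trans ha)]
  rfl

lemma flip_lip (g h : L) (a b : ℝ) : ‖flip g a - flip h b‖ ≤ 5 * ‖g - h‖ + 2 * |a - b| := by
  set δ := ‖g - h‖ with hδ
  have hδ0 : 0 ≤ δ := norm_nonneg _
  set E1 : Set ℝ := {s | (min a (b - δ)) < G g s ∧ G g s ≤ a} with hE1
  set E2 : Set ℝ := {s | a < G g s ∧ G g s ≤ max a (b + δ)} with hE2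
  have hE1m : MeasurableSet E1 :=
    (measurableSet_lt measurable_const (G_meas g)).inter (measurableSet_le (G_meas g) measurable_const)
  have hE2m : MeasurableSet E2 :=
    (measurableSet_lt measurable_const (G_meas g)).inter (measurableSet_le (G_meas g) measurable_const)
  have m1 := mass_window g (a := min a (b - δ)) (b := a) (min_le_left _ _)
  have m2 := mass_window g (a := a) (b := max a (b + δ)) (le_max_left _ _)
  have hpt : ∀ᵐ s ∂(volume : Measure ℝ), ‖(flip g a - flip h b : L) s‖ ≤
      ‖(g - h : L) s‖ + 2 * (E1.indicator (fun x => ‖g x‖) s + E2.indicator (fun x => ‖g x‖) s) := by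
    filter_upwards [Lp.coeFn_sub (flip g a) (flip h b), Lp.coeFn_sub g h, flip_coe g a,
      flip_coe h b] with s h1 h2 h3 h4
    rw [h1, h2, Pi.sub_apply, Pi.sub_apply, h3, h4]
    have hG := abs_le.1 (G_diff g h s)
    have n1 : 0 ≤ E1.indicator (fun x => ‖g x‖) s := indicator_nonneg (fun _ _ => norm_nonneg _) _
    have n2 : 0 ≤ E2.indicator (fun x => ‖g x‖) s := indicator_nonneg (fun _ _ => norm_nonneg _) _
    unfold flipFun
    split_ifs with c1 c2 c2
    · have : - g s - - h s = -(g s - h s) := by ring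
      rw [this, norm_neg]; linarith
    · -- G g ≤ a, G h > b
      have hmem : s ∈ E1 := by
        refine ⟨?_, c1⟩
        apply lt_of_le_of_lt (min_le_right _ _)
        push Not at c2
        have := hG.1; have := hG.2
        linarith
      rw [indicator_of_mem hmem]
      have : - g s - h s = (g s - h s) - 2 * g s := by ring
      rw [this]
      calc ‖(g s - h s) - 2 * g s‖ ≤ ‖g s - h s‖ + ‖2 * g s‖ := norm_sub_le _ _
        _ = ‖g s - h s‖ + 2 * ‖g s‖ := by rw [norm_mul]; norm_num
        _ ≤ _ := by linarith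
    · have hmem : s ∈ E2 := by
        push Not at c1
        refine ⟨c1, le_trans ?_ (le_max_right _ _)⟩
        have := hG.1; have := hG.2
        linarith
      rw [indicator_of_mem hmem]
      have : g s - - h s = 2 * g s - (g s - h s) := by ring
      rw [this]
      calc ‖2 * g s - (g s - h s)‖ ≤ ‖2 * g s‖ + ‖g s - h s‖ := norm_sub_le _ _
        _ = ‖g s - h s‖ + 2 * ‖g s‖ := by rw [norm_mul]; norm_num; ring
        _ ≤ _ := by linarith
    · linarith
  have i1 : Integrable (E1.indicator (fun x => ‖g x‖)) (volume : Measure ℝ) :=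
    (int_norm g).indicator hE1m
  have i2 : Integrable (E2.indicator (fun x => ‖g x‖)) (volume : Measure ℝ) :=
    (int_norm g).indicator hE2m
  calc ‖flip g a - flip h b‖ = ∫ s, ‖(flip g a - flip h b : L) s‖ := L1.norm_eq_integral_norm _
    _ ≤ ∫ s, (‖(g - h : L) s‖ + 2 * (E1.indicator (fun x => ‖g x‖) s
          + E2.indicator (fun x => ‖g x‖) s)) :=
        integral_mono_ae (int_norm _) ((int_norm _).add ((i1.add i2).const_mul 2)) hpt
    _ = δ + 2 * ((∫ s in E1, ‖g s‖) + ∫ s in E2, ‖g s‖) := by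
        have e1 : ∫ s, 2 * (E1.indicator (fun x => ‖g x‖) s + E2.indicator (fun x => ‖g x‖) s)
            = 2 * ((∫ s in E1, ‖g s‖) + ∫ s in E2, ‖g s‖) := by
          rw [integral_const_mul, integral_add i1 i2, integral_indicator hE1m,
            integral_indicator hE2m]
        rw [integral_add (f := fun s => ‖(g - h : L) s‖) (int_norm _)
          (g := fun s => 2 * (E1.indicator (fun x => ‖g x‖) s + E2.indicator (fun x => ‖g x‖) s))
          ((i1.add i2).const_mul 2), e1, ← L1.norm_eq_integral_norm]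
    _ ≤ δ + 2 * ((a - min a (b - δ)) + (max a (b + δ) - a)) := by linarith
    _ ≤ 5 * δ + 2 * |a - b| := by
        rcases abs_cases (a - b) with ⟨h1, h2⟩ | ⟨h1, h2⟩ <;>
        rcases min_cases a (b - δ) with ⟨h3, h4⟩ | ⟨h3, h4⟩ <;>
        rcases max_cases a (b + δ) with ⟨h5, h6⟩ | ⟨h5, h6⟩ <;>
        rw [h1, h3, h5] <;> linarith

end Pool.Agent.Helper393.Flip
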