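import Mathlib
import Pool.Agent.Helper393.Flip

set_option autoImplicit false

open MeasureTheory Set Filter Topology
open Pool.Agent.Helper393.Flip (L flip)

namespace Pool.Agent.Helper393.Chain

/-- the Banach space `c₀(L¹)` -/
abbrev Y : Type := ZeroAtInftyContinuousMap ℕ L

lemma dist_coord (f g : Y) (k : ℕ) : ‖f k - g k‖ ≤ ‖f - g‖ := by
  have h := BoundedContinuousFunction.norm_coe_le_norm ((f - g).toBCF) k
  rw [ZeroAtInftyContinuousMap.norm_toBCF_eq_norm] at h
  simpa using h

lemma norm_coord (f : Y) (k : ℕ) : ‖f k‖ ≤ ‖f‖ := by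
  have h := BoundedContinuousFunction.norm_coe_le_norm (f.toBCF) k
  rw [ZeroAtInftyContinuousMap.norm_toBCF_eq_norm] at h
  simpa using h

lemma norm_le_of (f : Y) {C : ℝ} (hC : 0 ≤ C) (h : ∀ k, ‖f k‖ ≤ C) : ‖f‖ ≤ C := by
  rw [← ZeroAtInftyContinuousMap.norm_toBCF_eq_norm]
  exact (BoundedContinuousFunction.norm_le hC).2 (by simpa using h)

lemma tendsto_coord (f : Y) : Tendsto (fun k => f k) atTop (𝓝 0) := by
  have := f.zero_at_infty'
  rw [cocompact_eq_cofinite, Nat.cofinite_eq_atTop] at this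
  exact this

instance : Nontrivial L := by
  refine ⟨⟨indicatorConstLp 1 (s := Icc (0:ℝ) 1) measurableSet_Icc (by simp) (1 : ℝ), 0, ?_⟩⟩
  intro h
  have := norm_indicatorConstLp (p := 1) (μ := (volume : Measure ℝ)) (s := Icc (0:ℝ) 1)
    (hs := measurableSet_Icc) (hμs := by simp) (c := (1 : ℝ)) (by simp) (by simp)
  rw [h] at this
  simp at this

/-- a centre of norm `1/4` -/
noncomputable def c : L := (exists_norm_eq L (c := 1 / 4) (by norm_num)).choose

lemma norm_c : ‖c‖ = 1 / 4 := (exists_norm_eq L (c := 1 / 4) (by norm_num)).choose_spec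

/-- distance of `‖f k - c‖` from `1/4` -/
noncomputable def w (f : Y) (k : ℕ) : ℝ := |‖f k - c‖ - 1 / 4|

noncomputable def gam (t : ℝ) : ℝ := max 0 (min 1 (2 - 16 * t))
noncomputable def kap (t : ℝ) : ℝ := max 0 (min 1 (32 * t - 1))

lemma abs_max_min (a b : ℝ) : |max 0 (min 1 a) - max 0 (min 1 b)| ≤ |a - b| := by
  calc |max 0 (min 1 a) - max 0 (min 1 b)| ≤ max |(0:ℝ) - 0| |min 1 a - min 1 b| :=
        abs_max_sub_max_le_max _ _ _ _
    _ ≤ max |(0:ℝ) - 0| (max |(1:ℝ) - 1| |a - b|) :=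
        max_le_max le_rfl (abs_min_sub_min_le_max _ _ _ _)
    _ ≤ |a - b| := by simp

lemma gam_lip (s t : ℝ) : |gam s - gam t| ≤ 16 * |s - t| := by
  refine (abs_max_min _ _).trans ?_
  have : (2 - 16 * s) - (2 - 16 * t) = -(16 * (s - t)) := by ring
  rw [this, abs_neg, abs_mul]; norm_num

lemma kap_lip (s t : ℝ) : |kap s - kap t| ≤ 32 * |s - t| := by
  refine (abs_max_min _ _).trans ?_
  have : (32 * s - 1) - (32 * t - 1) = (32 * (s - t)) := by ring
  rw [this, abs_mul]; norm_num

lemma gam_one {t : ℝ} (h : t ≤ 1 / 16) : gam t = 1 := by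
  unfold gam; rw [min_eq_left (by linarith)]; simp
lemma gam_zero {t : ℝ} (h : 1 / 8 ≤ t) : gam t = 0 := by
  unfold gam; exact max_eq_left ((min_le_right _ _).trans (by linarith))
lemma kap_one {t : ℝ} (h : 1 / 16 ≤ t) : kap t = 1 := by
  unfold kap; rw [min_eq_left (by linarith)]; simp
lemma kap_zero {t : ℝ} (h : t ≤ 1 / 32) : kap t = 0 := by
  unfold kap; exact max_eq_left ((min_le_right _ _).trans (by linarith))
lemma gam_nonneg (t : ℝ) : 0 ≤ gam t := le_max_left _ _
lemma kap_nonneg (t : ℝ) : 0 ≤ kap t := le_max_left _ _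

/-- activation level: `act w k = min_{j<k} kap (w j)` -/
noncomputable def act (w : ℕ → ℝ) : ℕ → ℝ
  | 0 => 1
  | k + 1 => min (act w k) (kap (w k))

/-- amount of flipping in block `k` -/
noncomputable def p (w : ℕ → ℝ) (k : ℕ) : ℝ := min (act w k) (gam (w k))

lemma act_nonneg (w : ℕ → ℝ) (k : ℕ) : 0 ≤ act w k := by
  induction k with
  | zero => simp [act]
  | succ k ih => exact le_min ih (kap_nonneg _)

lemma act_le_one (w : ℕ → ℝ) (k : ℕ) : act w k ≤ 1 := by
  induction k with
  | zero => simp [act]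
  | succ k ih => exact (min_le_left _ _).trans ih

lemma act_anti (w : ℕ → ℝ) {j k : ℕ} (h : j ≤ k) : act w k ≤ act w j := by
  induction h with
  | refl => exact le_rfl
  | step _ ih => exact (min_le_left _ _).trans ih

lemma act_lip (v w : ℕ → ℝ) {δ : ℝ} (hδ : 0 ≤ δ) (h : ∀ k, |v k - w k| ≤ δ) (k : ℕ) :
    |act v k - act w k| ≤ 32 * δ := by
  induction k with
  | zero => simp [act]; linarith
  | succ k ih =>
    refine (abs_min_sub_min_le_max _ _ _ _).trans (max_le ih ?_)
    exact (kap_lip _ _).trans (by linarith [h k])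

lemma p_lip (v w : ℕ → ℝ) {δ : ℝ} (hδ : 0 ≤ δ) (h : ∀ k, |v k - w k| ≤ δ) (k : ℕ) :
    |p v k - p w k| ≤ 32 * δ := by
  refine (abs_min_sub_min_le_max _ _ _ _).trans (max_le (act_lip v w hδ h k) ?_)
  exact (gam_lip _ _).trans (by linarith [h k])

lemma w_tendsto (f : Y) : Tendsto (w f) atTop (𝓝 0) := by
  have h1 : Tendsto (fun k => |‖f k - c‖ - 1 / 4|) atTop (𝓝 |‖(0 : L) - c‖ - 1 / 4|) :=
    (((tendsto_coord f).sub_const c).norm.sub_const (1/4)).abs
  have h2 : |‖(0 : L) - c‖ - 1 / 4| = 0 := by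
    rw [zero_sub, norm_neg, norm_c]; simp
  rw [h2] at h1
  exact h1

lemma p_eventually (f : Y) : ∀ᶠ k in atTop, p (w f) k = 0 := by
  have h1 : ∀ᶠ k in atTop, w f k < 1 / 32 := (w_tendsto f).eventually_lt_const (by norm_num)
  obtain ⟨N, hN⟩ := eventually_atTop.1 h1
  filter_upwards [eventually_ge_atTop (N + 1)] with k hk
  have h2 : act (w f) k ≤ 0 := by
    refine (act_anti (w f) hk).trans ?_
    refine (min_le_right _ _).trans ?_
    rw [kap_zero (hN N le_rfl).le]
  exact le_antisymm ((min_le_left _ _).trans h2) (le_min (act_nonneg _ _) (gam_nonneg _))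

/-- the coordinates of the involution -/
noncomputable def Tfun (f : Y) (k : ℕ) : L := c + flip (f k - c) (p (w f) k)

lemma Tfun_of_p (f : Y) {k : ℕ} (h : p (w f) k = 0) : Tfun f k = f k := by
  unfold Tfun
  rw [Flip.flip_zero _ h.le]
  abel

/-- the involution of `c₀(L¹)` -/
noncomputable def T (f : Y) : Y where
  toFun := Tfun f
  continuous_toFun := continuous_of_discreteTopology
  zero_at_infty' := by
    rw [cocompact_eq_cofinite, Nat.cofinite_eq_atTop]
    refine (tendsto_coord f).congr' ?_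
    filter_upwards [p_eventually f] with k hk
    exact (Tfun_of_p f hk).symm

lemma T_apply (f : Y) (k : ℕ) : T f k = c + flip (f k - c) (p (w f) k) := rfl

lemma w_T (f : Y) : w (T f) = w f := by
  funext k
  unfold w
  rw [T_apply]
  have : c + flip (f k - c) (p (w f) k) - c = flip (f k - c) (p (w f) k) := by abel
  rw [this, Flip.flip_norm]

lemma T_T (f : Y) : T (T f) = f := by
  ext1 k
  rw [T_apply, w_T, T_apply]
  have : c + flip (f k - c) (p (w f) k) - c = flip (f k - c) (p (w f) k) := by abel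
  rw [this, Flip.flip_flip]
  abel

lemma T_lip (f g : Y) : ‖T f - T g‖ ≤ 69 * ‖f - g‖ := by
  refine norm_le_of _ (by positivity) fun k => ?_
  have h1 : (T f - T g : Y) k = flip (f k - c) (p (w f) k) - flip (g k - c) (p (w g) k) := by
    rw [ZeroAtInftyContinuousMap.coe_sub, Pi.sub_apply, T_apply, T_apply]; abel
  rw [h1]
  have h2 : ∀ j, |w f j - w g j| ≤ ‖f - g‖ := by
    intro j
    unfold w
    refine (abs_abs_sub_abs_le_abs_sub _ _).trans ?_
    have : ‖f j - c‖ - 1 / 4 - (‖g j - c‖ - 1 / 4) = ‖f j - c‖ - ‖g j - c‖ := by ring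
    rw [this]
    refine (abs_norm_sub_norm_le _ _).trans ?_
    have : f j - c - (g j - c) = f j - g j := by abel
    rw [this]
    exact dist_coord f g j
  have h3 := p_lip (w f) (w g) (norm_nonneg (f - g)) h2 k
  refine (Flip.flip_lip _ _ _ _).trans ?_
  have : f k - c - (g k - c) = f k - g k := by abel
  rw [this]
  have := dist_coord f g k
  linarith

lemma T_ball (f : Y) (hf : ‖f‖ ≤ 1) : ‖T f‖ ≤ 1 := by
  refine norm_le_of _ zero_le_one fun k => ?_
  by_cases hp : p (w f) k = 0
  · have : T f k = f k := Tfun_of_p f hp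
    rw [this]
    exact (norm_coord f k).trans hf
  · have h1 : w f k < 1 / 8 := by
      by_contra hcon
      push Not at hcon
      apply hp
      unfold p
      rw [gam_zero hcon]
      exact min_eq_right (act_nonneg _ _)
    have h2 : ‖f k - c‖ ≤ 3 / 8 := by
      have := (abs_lt.1 h1).2
      linarith
    rw [T_apply]
    calc ‖c + flip (f k - c) (p (w f) k)‖ ≤ ‖c‖ + ‖flip (f k - c) (p (w f) k)‖ := norm_add_le _ _
      _ ≤ 1 := by rw [Flip.flip_norm, norm_c]; linarith

lemma T_displacement (f : Y) : 3 / 8 ≤ ‖T f - f‖ := by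
  classical
  have hex : ∃ k, w f k < 1 / 16 :=
    ((w_tendsto f).eventually_lt_const (by norm_num : (0 : ℝ) < 1 / 16)).exists
  set K := Nat.find hex with hK
  have hKlt : w f K < 1 / 16 := Nat.find_spec hex
  have hmin : ∀ j < K, 1 / 16 ≤ w f j := fun j hj => not_lt.1 (Nat.find_min hex hj)
  have hact : ∀ j ≤ K, act (w f) j = 1 := by
    intro j
    induction j with
    | zero => intro _; rfl
    | succ j ih =>
      intro hj
      have h1 := ih (by omega)
      show min (act (w f) j) (kap (w f j)) = 1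
      rw [h1, kap_one (hmin j (by omega))]
      simp
  have hp : p (w f) K = 1 := by
    unfold p
    rw [hact K le_rfl, gam_one hKlt.le]
    simp
  have hlow : 3 / 16 ≤ ‖f K - c‖ := by
    have := (abs_lt.1 hKlt).1
    linarith
  have hup : ‖f K - c‖ ≤ 1 := by
    have := (abs_lt.1 hKlt).2
    linarith
  have h1 : (T f - f : Y) K = -((2 : ℝ) • (f K - c)) := by
    rw [ZeroAtInftyContinuousMap.coe_sub, Pi.sub_apply, T_apply, hp, Flip.flip_full _ hup,
      two_smul]
    abel
  have h2 := norm_coord (T f - f) K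
  rw [h1, norm_neg, norm_smul] at h2
  have : ‖(2 : ℝ)‖ = 2 := by norm_num
  rw [this] at h2
  linarith

end Pool.Agent.Helper393.Chain
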