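import Mathlib

open Filter Topology

namespace Pool.Agent.Helper393.HilbertSys

noncomputable section

/-- Partial products of cosines. -/
def phiN (N : ℕ) (x : ℝ) : ℝ :=
  ∏ i ∈ Finset.range N, Real.cos (2 * Real.pi * x / 8 ^ (i + 1))

lemma phiN_zero (x : ℝ) : phiN 0 x = 1 := by simp [phiN]

lemma phiN_succ (N : ℕ) (x : ℝ) :
    phiN (N + 1) x = phiN N x * Real.cos (2 * Real.pi * x / 8 ^ (N + 1)) := by
  simp [phiN, Finset.prod_range_succ]

lemma abs_phiN_le (N : ℕ) (x : ℝ) : |phiN N x| ≤ 1 := by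
  rw [phiN, Finset.abs_prod]
  exact Finset.prod_le_one (fun _ _ => abs_nonneg _) (fun _ _ => Real.abs_cos_le_one _)

lemma phiN_neg (N : ℕ) (x : ℝ) : phiN N (-x) = phiN N x := by
  unfold phiN
  refine Finset.prod_congr rfl fun i _ => ?_
  rw [← Real.cos_neg]
  congr 1
  ring

lemma phiN_at_zero (N : ℕ) : phiN N 0 = 1 := by simp [phiN]

lemma phiN_step (N : ℕ) (x : ℝ) :
    |phiN (N + 1) x - phiN N x| ≤ (2 * Real.pi * x) ^ 2 / 2 / 64 * (1 / 64) ^ N := by
  rw [phiN_succ]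
  have h1 : phiN N x * Real.cos (2 * Real.pi * x / 8 ^ (N + 1)) - phiN N x
      = phiN N x * (Real.cos (2 * Real.pi * x / 8 ^ (N + 1)) - 1) := by ring
  rw [h1, abs_mul]
  have h2 := Real.one_sub_sq_div_two_le_cos (x := 2 * Real.pi * x / 8 ^ (N + 1))
  have h3 := Real.cos_le_one (2 * Real.pi * x / 8 ^ (N + 1))
  have h4 : |Real.cos (2 * Real.pi * x / 8 ^ (N + 1)) - 1|
      ≤ (2 * Real.pi * x / 8 ^ (N + 1)) ^ 2 / 2 := by
    rw [abs_le]; constructor <;> nlinarith [sq_nonneg (2 * Real.pi * x / 8 ^ (N + 1))]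
  have h5 : (2 * Real.pi * x / 8 ^ (N + 1)) ^ 2 / 2
      = (2 * Real.pi * x) ^ 2 / 2 / 64 * (1 / 64) ^ N := by
    have : (64 : ℝ) ^ N = (8 ^ N) ^ 2 := by rw [← pow_mul, mul_comm, pow_mul]; norm_num
    rw [div_pow, one_div, inv_pow, this, pow_succ, mul_pow]
    field_simp
    ring
  calc |phiN N x| * |Real.cos (2 * Real.pi * x / 8 ^ (N + 1)) - 1|
      ≤ 1 * ((2 * Real.pi * x / 8 ^ (N + 1)) ^ 2 / 2) :=
        mul_le_mul (abs_phiN_le N x) h4 (abs_nonneg _) zero_le_one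
    _ = _ := by rw [one_mul, h5]

lemma cauchy_phiN (x : ℝ) : CauchySeq (fun N => phiN N x) := by
  refine cauchySeq_of_le_geometric (1 / 64) ((2 * Real.pi * x) ^ 2 / 2 / 64) (by norm_num) ?_
  intro n
  rw [dist_comm, Real.dist_eq]
  exact phiN_step n x

/-- The infinite product. -/
def phi (x : ℝ) : ℝ := limUnder atTop (fun N => phiN N x)

lemma tendsto_phi (x : ℝ) : Tendsto (fun N => phiN N x) atTop (𝓝 (phi x)) :=
  (cauchy_phiN x).tendsto_limUnder

lemma abs_phi_le (x : ℝ) : |phi x| ≤ 1 :=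
  le_of_tendsto (tendsto_phi x).abs (Eventually.of_forall fun N => abs_phiN_le N x)

lemma phi_neg (x : ℝ) : phi (-x) = phi x := by
  refine tendsto_nhds_unique (tendsto_phi (-x)) ?_
  simpa [phiN_neg] using tendsto_phi x

lemma phi_zero : phi 0 = 1 := by
  refine tendsto_nhds_unique (tendsto_phi 0) ?_
  simp [phiN_at_zero]

lemma phiN_lip (N : ℕ) (x y : ℝ) :
    |phiN N x - phiN N y| ≤ (1 - 1 / 8 ^ N) * |x - y| := by
  induction N with
  | zero => simp [phiN_zero]
  | succ N ih =>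
    rw [phiN_succ, phiN_succ]
    set A := phiN N x
    set B := phiN N y
    set a := 2 * Real.pi * x / 8 ^ (N + 1) with ha
    set b := 2 * Real.pi * y / 8 ^ (N + 1) with hb
    have h1 : A * Real.cos a - B * Real.cos b
        = (A - B) * Real.cos a + B * (Real.cos a - Real.cos b) := by ring
    have h2 : |Real.cos a - Real.cos b| ≤ |a - b| := by
      have := Real.lipschitzWith_cos.dist_le_mul a b
      simpa [Real.dist_eq] using this
    have h3 : |a - b| = 2 * Real.pi / 8 ^ (N + 1) * |x - y| := by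
      have : a - b = 2 * Real.pi / 8 ^ (N + 1) * (x - y) := by rw [ha, hb]; ring
      rw [this, abs_mul, abs_of_nonneg]
      positivity
    have h4 : |A * Real.cos a - B * Real.cos b| ≤ |A - B| + |a - b| := by
      rw [h1]
      calc |(A - B) * Real.cos a + B * (Real.cos a - Real.cos b)|
          ≤ |(A - B) * Real.cos a| + |B * (Real.cos a - Real.cos b)| := abs_add_le _ _
        _ = |A - B| * |Real.cos a| + |B| * |Real.cos a - Real.cos b| := by
            rw [abs_mul, abs_mul]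
        _ ≤ |A - B| * 1 + 1 * |a - b| := by
            gcongr
            · exact Real.abs_cos_le_one _
            · exact abs_phiN_le N y
        _ = _ := by ring
    have h5 : 2 * Real.pi / 8 ^ (N + 1) ≤ 1 / 8 ^ N - 1 / 8 ^ (N + 1) := by
      have : (1 : ℝ) / 8 ^ N - 1 / 8 ^ (N + 1) = 7 / 8 ^ (N + 1) := by
        rw [pow_succ]; field_simp; norm_num
      rw [this]
      gcongr
      linarith [Real.pi_lt_d2]
    calc _ ≤ |A - B| + |a - b| := h4
      _ ≤ (1 - 1 / 8 ^ N) * |x - y| + (1 / 8 ^ N - 1 / 8 ^ (N + 1)) * |x - y| := by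
          rw [h3]; gcongr
      _ = _ := by ring

lemma phi_lip (x y : ℝ) : |phi x - phi y| ≤ |x - y| := by
  refine le_of_tendsto ((tendsto_phi x).sub (tendsto_phi y)).abs
    (Eventually.of_forall fun N => ?_)
  refine (phiN_lip N x y).trans ?_
  have : (0 : ℝ) ≤ 1 / 8 ^ N := by positivity
  nlinarith [abs_nonneg (x - y)]

lemma phi_continuous : Continuous phi := by
  refine continuous_iff_continuousAt.2 fun x => ?_
  rw [ContinuousAt, Metric.tendsto_nhds_nhds]
  intro ε hε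
  refine ⟨ε, hε, fun y hy => ?_⟩
  rw [Real.dist_eq] at hy ⊢
  exact (phi_lip y x).trans_lt hy

lemma phiN_add (k M : ℕ) (x : ℝ) : phiN (k + M) x = phiN k x * phiN M (x / 8 ^ k) := by
  unfold phiN
  rw [Finset.prod_range_add]
  congr 1
  refine Finset.prod_congr rfl fun i _ => ?_
  congr 1
  rw [show k + i + 1 = k + (i + 1) by ring, pow_add]
  field_simp

lemma phi_split (k : ℕ) (x : ℝ) : phi x = phiN k x * phi (x / 8 ^ k) := by
  have h1 : Tendsto (fun M => phiN (k + M) x) atTop (𝓝 (phi x)) := by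
    have := (tendsto_phi x).comp (tendsto_add_atTop_nat k)
    refine this.congr fun M => ?_
    simp [add_comm]
  have h2 : Tendsto (fun M => phiN (k + M) x) atTop (𝓝 (phiN k x * phi (x / 8 ^ k))) := by
    simp_rw [phiN_add]
    exact (tendsto_phi _).const_mul _
  exact tendsto_nhds_unique h1 h2

lemma phiN_period (k : ℕ) (m : ℤ) : phiN k ((m : ℝ) + 8 ^ k) = phiN k m := by
  unfold phiN
  refine Finset.prod_congr rfl fun i hi => ?_
  have hi' : i < k := Finset.mem_range.1 hi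
  obtain ⟨j, rfl⟩ := Nat.exists_eq_add_of_lt hi'
  have : 2 * Real.pi * ((m : ℝ) + 8 ^ (i + j + 1)) / 8 ^ (i + 1)
      = 2 * Real.pi * m / 8 ^ (i + 1) + ((8 ^ j : ℕ) : ℝ) * (2 * Real.pi) := by
    push_cast
    rw [show i + j + 1 = (i + 1) + j by ring, pow_add]
    field_simp
  rw [this, Real.cos_add_nat_mul_two_pi]

lemma phi_shift (k : ℕ) (m : ℤ) :
    phi ((m : ℝ) + 8 ^ k) = phiN k m * phi ((m : ℝ) / 8 ^ k + 1) := by
  rw [phi_split k, phiN_period]
  congr 2
  field_simp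

/-- The limit constant. -/
def cc : ℝ := phi 1

lemma tendsto_phi_shift (m : ℤ) :
    Tendsto (fun k : ℕ => phi ((m : ℝ) + 8 ^ k)) atTop (𝓝 (cc * phi m)) := by
  simp_rw [phi_shift]
  rw [mul_comm]
  refine (tendsto_phi m).mul ?_
  have h1 : Tendsto (fun k : ℕ => (m : ℝ) / 8 ^ k + 1) atTop (𝓝 (0 + 1)) := by
    refine Tendsto.add ?_ tendsto_const_nhds
    exact tendsto_const_nhds.div_atTop (tendsto_pow_atTop_atTop_of_one_lt (by norm_num))
  rw [zero_add] at h1
  exact (phi_continuous.tendsto 1).comp h1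

lemma tendsto_phi_shift_neg (m : ℤ) :
    Tendsto (fun k : ℕ => phi ((m : ℝ) - 8 ^ k)) atTop (𝓝 (cc * phi m)) := by
  have h := tendsto_phi_shift (-m)
  have h2 : (fun k : ℕ => phi (((-m : ℤ) : ℝ) + 8 ^ k)) = fun k : ℕ => phi ((m : ℝ) - 8 ^ k) := by
    funext k
    rw [← phi_neg]
    congr 1
    push_cast
    ring
  rw [h2] at h
  have h3 : phi ((-m : ℤ) : ℝ) = phi m := by push_cast; exact phi_neg _
  rwa [h3] at h

lemma cc_le : cc ≤ Real.cos (Real.pi / 4) := by
  have h := phi_split 1 1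
  rw [cc, h]
  have h1 : phiN 1 1 = Real.cos (Real.pi / 4) := by
    rw [phiN_succ, phiN_zero, one_mul]
    congr 1
    ring
  rw [h1]
  have h2 : (0 : ℝ) ≤ Real.cos (Real.pi / 4) := by
    rw [Real.cos_pi_div_four]; positivity
  have h3 := (abs_le.1 (abs_phi_le (1 / 8 ^ 1))).2
  nlinarith

lemma cc_lt_one : cc < 1 := by
  refine cc_le.trans_lt ?_
  rw [Real.cos_pi_div_four]
  nlinarith [Real.sq_sqrt (show (0 : ℝ) ≤ 2 by norm_num), Real.sqrt_nonneg 2]

lemma phiN_one_ge (N : ℕ) : 2 / 3 * (1 + 1 / 2 * (1 / 64) ^ N) ≤ phiN N 1 := by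
  induction N with
  | zero => rw [phiN_zero]; norm_num
  | succ N ih =>
    rw [phiN_succ]
    have h2 := Real.one_sub_sq_div_two_le_cos (x := 2 * Real.pi * 1 / 8 ^ (N + 1))
    set t : ℝ := (1 / 64) ^ N with ht
    have ht0 : 0 < t := by positivity
    have ht1 : t ≤ 1 := pow_le_one₀ (by norm_num) (by norm_num)
    have h5 : (2 * Real.pi * 1 / 8 ^ (N + 1)) ^ 2 / 2 = Real.pi ^ 2 / 32 * t := by
      have : (64 : ℝ) ^ N = (8 ^ N) ^ 2 := by rw [← pow_mul, mul_comm, pow_mul]; norm_num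
      rw [ht, div_pow, one_div, inv_pow, this, pow_succ, mul_pow]
      field_simp
      ring
    have h6 : Real.pi ^ 2 ≤ 10 := by nlinarith [Real.pi_lt_d2, Real.pi_pos]
    have h7 : 1 - 5 / 16 * t ≤ Real.cos (2 * Real.pi * 1 / 8 ^ (N + 1)) := by
      rw [h5] at h2
      nlinarith
    have h8 : (0 : ℝ) ≤ 1 - 5 / 16 * t := by nlinarith
    calc 2 / 3 * (1 + 1 / 2 * (1 / 64) ^ (N + 1)) = 2 / 3 * (1 + 1 / 2 * (1 / 64) * t) := by
          rw [ht, pow_succ]; ring
      _ ≤ 2 / 3 * (1 + 1 / 2 * t) * (1 - 5 / 16 * t) := by nlinarith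
      _ ≤ _ := by
          refine mul_le_mul ih h7 h8 ?_
          refine le_trans ?_ ih
          positivity

lemma cc_pos : 0 < cc := by
  have h : 2 / 3 ≤ cc := by
    refine ge_of_tendsto (tendsto_phi 1) (Eventually.of_forall fun N => ?_)
    refine le_trans ?_ (phiN_one_ge N)
    have : (0 : ℝ) ≤ (1 / 64) ^ N := by positivity
    linarith
  linarith

open ComplexConjugate in
lemma phiN_pd (N : ℕ) (s : Finset ℤ) (a : ℤ → ℂ) :
    0 ≤ (∑ m ∈ s, ∑ n ∈ s, conj (a m) * a n * ((phiN N ((n : ℝ) - m) : ℝ) : ℂ)).re := by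
  induction N generalizing a with
  | zero =>
    have : (∑ m ∈ s, ∑ n ∈ s, conj (a m) * a n * ((phiN 0 ((n : ℝ) - m) : ℝ) : ℂ))
        = conj (∑ m ∈ s, a m) * (∑ n ∈ s, a n) := by
      rw [map_sum, Finset.sum_mul_sum]
      simp [phiN_zero]
    rw [this, ← Complex.normSq_eq_conj_mul_self]
    exact_mod_cast Complex.normSq_nonneg _
  | succ N ih =>
    set θ : ℝ := 2 * Real.pi / 8 ^ (N + 1) with hθ
    have h1 := ih (fun m => a m * ((Real.cos (m * θ) : ℝ) : ℂ))
    have h2 := ih (fun m => a m * ((Real.sin (m * θ) : ℝ) : ℂ))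
    have h3 : (∑ m ∈ s, ∑ n ∈ s, conj (a m) * a n * ((phiN (N + 1) ((n : ℝ) - m) : ℝ) : ℂ))
      = (∑ m ∈ s, ∑ n ∈ s, conj (a m * ((Real.cos (m * θ) : ℝ) : ℂ)) *
            (a n * ((Real.cos (n * θ) : ℝ) : ℂ)) * ((phiN N ((n : ℝ) - m) : ℝ) : ℂ))
        + (∑ m ∈ s, ∑ n ∈ s, conj (a m * ((Real.sin (m * θ) : ℝ) : ℂ)) *
            (a n * ((Real.sin (n * θ) : ℝ) : ℂ)) * ((phiN N ((n : ℝ) - m) : ℝ) : ℂ)) := by
      rw [← Finset.sum_add_distrib]
      refine Finset.sum_congr rfl fun m _ => ?_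
      rw [← Finset.sum_add_distrib]
      refine Finset.sum_congr rfl fun n _ => ?_
      rw [phiN_succ]
      have h4 : 2 * Real.pi * ((n : ℝ) - m) / 8 ^ (N + 1) = n * θ - m * θ := by
        rw [hθ]; ring
      rw [h4, Real.cos_sub]
      simp only [map_mul, Complex.conj_ofReal]
      push_cast
      ring
    rw [h3, Complex.add_re]
    exact add_nonneg h1 h2

open ComplexConjugate in
lemma phi_pd (s : Finset ℤ) (a : ℤ → ℂ) :
    0 ≤ (∑ m ∈ s, ∑ n ∈ s, conj (a m) * a n * ((phi ((n : ℝ) - m) : ℝ) : ℂ)).re := by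
  have h : Tendsto (fun N => (∑ m ∈ s, ∑ n ∈ s,
      conj (a m) * a n * ((phiN N ((n : ℝ) - m) : ℝ) : ℂ)).re) atTop
      (𝓝 (∑ m ∈ s, ∑ n ∈ s, conj (a m) * a n * ((phi ((n : ℝ) - m) : ℝ) : ℂ)).re) := by
    refine (Complex.continuous_re.tendsto _).comp ?_
    refine tendsto_finsetSum _ fun m _ => ?_
    refine tendsto_finsetSum _ fun n _ => ?_
    refine Tendsto.const_mul _ ?_
    exact (Complex.continuous_ofReal.tendsto _).comp (tendsto_phi _)
  exact ge_of_tendsto h (Eventually.of_forall fun N => phiN_pd N s a)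

end

end Pool.Agent.Helper393.HilbertSys
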