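import Mathlib
import Pool.Agent.Helper393.Phi

open Filter Topology ComplexConjugate

namespace Pool.Agent.Helper393.HilbertSys

noncomputable section

/-- kernel -/
def Kmat : Matrix ℤ ℤ (ℂ →L[ℂ] ℂ) :=
  fun m n => ((phi ((n : ℝ) - m) : ℝ) : ℂ) • ContinuousLinearMap.id ℂ ℂ

lemma phi_sub_comm (a b : ℝ) : phi (a - b) = phi (b - a) := by
  rw [← phi_neg]; congr 1; ring

lemma Kmat_herm : Kmat.IsHermitian := by
  ext m n
  simp only [Kmat, Matrix.conjTranspose_apply, star_smul, RCLike.star_def, Complex.conj_ofReal]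
  have : star (ContinuousLinearMap.id ℂ ℂ) = ContinuousLinearMap.id ℂ ℂ := by
    rw [← ContinuousLinearMap.one_def, star_one]
  rw [this, phi_sub_comm]

open scoped ComplexOrder in
lemma Kmat_posSemidef : Kmat.PosSemidef := by
  have key : Kmat.PosSemidef ↔ Kmat.IsHermitian ∧ ∀ (vv : ℤ →₀ ℂ),
    0 ≤ RCLike.re (vv.sum fun x w ↦ vv.sum fun x' w' ↦ inner ℂ (Kmat x' x w) w') := 
    (RKHS.posSemidef_tfae (K := Kmat)).out 0 2
  rw [key]
  refine ⟨Kmat_herm, ?_⟩
  intro vv
  have h := phi_pd vv.support (fun m => (vv m))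
  simp only [Finsupp.sum]
  refine h.trans_eq ?_
  change _ = Complex.re _
  congr 1
  refine Finset.sum_congr rfl fun m _ => Finset.sum_congr rfl fun n _ => ?_
  simp only [Kmat, smul_apply, ContinuousLinearMap.id_apply, smul_eq_mul,
    RCLike.inner_apply, map_mul, Complex.conj_ofReal]
  rw [phi_sub_comm]
  ring

open scoped ComplexOrder in
instance : Fact Kmat.PosSemidef := ⟨Kmat_posSemidef⟩

/-- The Hilbert space. -/
abbrev HH : Type := RKHS.OfKernel Kmat

/-- The orbit vectors. -/
def orb (n : ℤ) : HH := RKHS.kerFun HH n (1 : ℂ)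

lemma inner_orb (m n : ℤ) : inner ℂ (orb m) (orb n) = ((phi ((n : ℝ) - m) : ℝ) : ℂ) := by
  have h := RKHS.kernel_inner (H := HH) n m (1 : ℂ) (1 : ℂ)
  rw [orb, orb, ← h, RKHS.OfKernel.kernel_ofKernel]
  simp only [Kmat, smul_apply, ContinuousLinearMap.id_apply, smul_eq_mul,
    RCLike.inner_apply, Complex.conj_ofReal, mul_one, one_mul]
  rw [phi_sub_comm]

lemma norm_orb (n : ℤ) : ‖orb n‖ = 1 := by
  have h2 : ‖orb n‖ ^ 2 = 1 := by
    rw [norm_sq_eq_re_inner (𝕜 := ℂ), inner_orb, sub_self, phi_zero]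
    simp
  nlinarith [norm_nonneg (orb n)]

/-- linear combinations of orbit vectors -/
def lc : (ℤ →₀ ℂ) →ₗ[ℂ] HH := Finsupp.linearCombination ℂ orb

lemma lc_single (n : ℤ) (a : ℂ) : lc (Finsupp.single n a) = a • orb n := by
  simp [lc]

lemma lc_dense : DenseRange lc := by
  have h := RKHS.kerFun_dense (H := HH)
  have h2 : Submodule.span ℂ {RKHS.kerFun HH x v | (x : ℤ) (v : ℂ)} ≤ LinearMap.range lc := by
    rw [Submodule.span_le]
    rintro _ ⟨x, v, rfl⟩
    refine ⟨Finsupp.single x v, ?_⟩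
    rw [lc_single, orb, ← map_smul, smul_eq_mul, mul_one]
  have h3 : (LinearMap.range lc).topologicalClosure = ⊤ := by
    rw [eq_top_iff, ← h]
    exact Submodule.topologicalClosure_mono h2
  intro x
  have : x ∈ (LinearMap.range lc).topologicalClosure := by rw [h3]; trivial
  exact this

/-- The shift on finitely supported functions. -/
def shf : (ℤ →₀ ℂ) ≃ₗ[ℂ] (ℤ →₀ ℂ) := Finsupp.domLCongr (Equiv.addRight (1 : ℤ))

lemma shf_single (n : ℤ) (a : ℂ) : shf (Finsupp.single n a) = Finsupp.single (n + 1) a := by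
  simp [shf]

lemma inner_lc_shf (a b : ℤ →₀ ℂ) : inner ℂ (lc (shf a)) (lc (shf b)) = inner ℂ (lc a) (lc b) := by
  induction a using Finsupp.induction_linear with
  | zero => simp
  | add a a' h h' => simp only [map_add, inner_add_left, h, h']
  | single m x =>
    induction b using Finsupp.induction_linear with
    | zero => simp
    | add b b' h h' => simp only [map_add, inner_add_right, h, h']
    | single n y =>
      simp only [shf_single, lc_single, inner_smul_left, inner_smul_right, inner_orb]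
      congr 3
      push_cast
      ring_nf

lemma norm_lc_shf (a : ℤ →₀ ℂ) : ‖lc (shf a)‖ = ‖lc a‖ := by
  have h2 : ‖lc (shf a)‖ ^ 2 = ‖lc a‖ ^ 2 := by
    rw [norm_sq_eq_re_inner (𝕜 := ℂ), norm_sq_eq_re_inner (𝕜 := ℂ), inner_lc_shf]
  exact (sq_eq_sq₀ (norm_nonneg _) (norm_nonneg _)).1 h2

/-- The unitary. -/
def UU : HH ≃ₗᵢ[ℂ] HH :=
  LinearEquiv.extendOfIsometry shf lc lc lc_dense lc_dense norm_lc_shf

lemma UU_orb (n : ℤ) : UU (orb n) = orb (n + 1) := by
  have h := LinearEquiv.extendOfIsometry_eq shf lc lc lc_dense lc_dense norm_lc_shf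
    (Finsupp.single n 1)
  rw [shf_single, lc_single, lc_single, one_smul, one_smul] at h
  exact h

lemma UU_symm_orb (n : ℤ) : UU.symm (orb n) = orb (n - 1) := by
  rw [LinearIsometryEquiv.symm_apply_eq, UU_orb]
  congr 1
  ring

instance : TopologicalSpace.SeparableSpace HH := by
  have h1 : TopologicalSpace.IsSeparable (Set.range orb) :=
    (Set.countable_range orb).isSeparable
  have h2 := h1.span (R := ℂ)
  have h3 : TopologicalSpace.IsSeparable (Set.range lc) := by
    refine h2.mono ?_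
    rintro _ ⟨a, rfl⟩
    exact Finsupp.mem_span_range_iff_exists_finsupp.2 ⟨a, rfl⟩
  have h4 := h3.closure
  rw [lc_dense.closure_range] at h4
  exact TopologicalSpace.isSeparable_univ_iff.1 h4

end

end Pool.Agent.Helper393.HilbertSys
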