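import Mathlib
import Pool.Agent.Helper393.GNS

open Filter Topology ComplexConjugate

namespace Pool.Agent.Helper393.HilbertSys

section collapse

lemma rep_iter {Y H : Type*} (S : Y → Y) (U : H → H) (g : Y → H)
    (hg : ∀ y, g (S y) = U (g y)) (n : ℕ) (y : Y) : g (S^[n] y) = U^[n] (g y) := by
  induction n generalizing y with
  | zero => rfl
  | succ n ih => rw [Function.iterate_succ_apply, ih, hg, Function.iterate_succ_apply]

variable {𝕜 : Type*} [RCLike 𝕜] {Y : Type*} [TopologicalSpace Y] {H : Type*}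
  [NormedAddCommGroup H] [InnerProductSpace 𝕜 H]

omit [TopologicalSpace Y] in
lemma inner_iter (U : H ≃ₗᵢ[𝕜] H) (n : ℕ) (a b : H) :
    inner 𝕜 a (U^[n] b) = inner 𝕜 (U.symm^[n] a) b := by
  induction n generalizing a b with
  | zero => rfl
  | succ n ih =>
    rw [Function.iterate_succ_apply', Function.iterate_succ_apply, ← ih,
      ← LinearIsometryEquiv.inner_map_map U.symm a, LinearIsometryEquiv.symm_apply_apply]

/-- If `S^{d_k} y → z`, `S^{-d_k} z → w` and `w` is fixed, then every unitary representation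
which is weakly continuous identifies `z` and `w`. -/
lemma rep_collapse (S : Y ≃ₜ Y) {y z w : Y} {d : ℕ → ℕ}
    (h1 : Tendsto (fun k => S^[d k] y) atTop (𝓝 z))
    (h2 : Tendsto (fun k => S.symm^[d k] z) atTop (𝓝 w)) (hw : S w = w)
    (U : H ≃ₗᵢ[𝕜] H) (g : Y → H) (hg : ∀ y, g (S y) = U (g y))
    (hc : ∀ v : H, Continuous fun y => inner 𝕜 v (g y)) : g z = g w := by
  have hgs : ∀ y, g (S.symm y) = U.symm (g y) := by
    intro y
    rw [LinearIsometryEquiv.eq_symm_apply, ← hg, Homeomorph.apply_symm_apply]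
  have hU := rep_iter S U g hg
  have hUs := rep_iter S.symm U.symm g hgs
  have hb : ∀ n, U^[n] (g w) = g w := by
    intro n
    rw [← hU, Function.iterate_fixed hw]
  have hbs : ∀ n, U.symm^[n] (g w) = g w := by
    intro n
    rw [← hUs, Function.iterate_fixed]
    rw [Homeomorph.symm_apply_eq, hw]
  have f1 : Tendsto (fun k => inner 𝕜 (g z) (g (S^[d k] y))) atTop (𝓝 (inner 𝕜 (g z) (g z))) :=
    ((hc (g z)).tendsto z).comp h1
  have f2 : Tendsto (fun k => inner 𝕜 (g z) (g (S^[d k] y))) atTop (𝓝 (inner 𝕜 (g w) (g y))) := by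
    have := (RCLike.continuous_conj.tendsto _).comp (((hc (g y)).tendsto w).comp h2)
    rw [inner_conj_symm] at this
    refine this.congr fun k => ?_
    simp only [Function.comp_apply]
    rw [inner_conj_symm, hU, hUs, inner_iter]
  have e1 : inner 𝕜 (g z) (g z) = inner 𝕜 (g w) (g y) := tendsto_nhds_unique f1 f2
  have f3 : Tendsto (fun k => inner 𝕜 (g w) (g (S^[d k] y))) atTop (𝓝 (inner 𝕜 (g w) (g z))) :=
    ((hc (g w)).tendsto z).comp h1
  have f4 : Tendsto (fun k => inner 𝕜 (g w) (g (S^[d k] y))) atTop (𝓝 (inner 𝕜 (g w) (g y))) := by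
    refine tendsto_const_nhds.congr fun k => ?_
    rw [hU, inner_iter, hbs]
  have e2 : inner 𝕜 (g w) (g z) = inner 𝕜 (g w) (g y) := tendsto_nhds_unique f3 f4
  have f5 : Tendsto (fun k => inner 𝕜 (g w) (g (S.symm^[d k] z))) atTop
      (𝓝 (inner 𝕜 (g w) (g w))) := ((hc (g w)).tendsto w).comp h2
  have f6 : Tendsto (fun k => inner 𝕜 (g w) (g (S.symm^[d k] z))) atTop
      (𝓝 (inner 𝕜 (g w) (g z))) := by
    refine tendsto_const_nhds.congr fun k => ?_
    rw [hUs]
    have := inner_iter U.symm (d k) (g w) (g z)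
    rw [this, LinearIsometryEquiv.symm_symm, hb]
  have e3 : inner 𝕜 (g w) (g w) = inner 𝕜 (g w) (g z) := tendsto_nhds_unique f5 f6
  have e4 : inner 𝕜 (g z) (g w) = inner 𝕜 (g z) (g z) := by
    rw [← inner_conj_symm (𝕜 := 𝕜) (g z) (g w), e2, ← e1, inner_conj_symm]
  have e5 : inner 𝕜 (g z - g w) (g z - g w) = 0 := by
    rw [inner_sub_left, inner_sub_right, inner_sub_right, e4, e3]
    ring
  exact sub_eq_zero.1 (inner_self_eq_zero.1 e5)

end collapse

noncomputable section

/-- The closed unit ball of the dual of `HH`, as a subset of the weak dual. -/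
def ballW : Set (WeakDual ℂ HH) := WeakDual.toStrongDual ⁻¹' Metric.closedBall 0 1

lemma isCompact_ballW : IsCompact ballW := WeakDual.isCompact_closedBall 0 1

instance : CompactSpace ballW := isCompact_iff_compactSpace.1 isCompact_ballW

instance : TopologicalSpace.MetrizableSpace ballW :=
  WeakDual.metrizable_of_isCompact ℂ HH ballW isCompact_ballW

lemma mem_ballW (x : WeakDual ℂ HH) : x ∈ ballW ↔ ‖WeakDual.toStrongDual x‖ ≤ 1 := by
  exact mem_closedBall_zero_iff (E := StrongDual ℂ HH) (a := WeakDual.toStrongDual x)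

/-- composition with an isometry -/
def act (V : HH ≃ₗᵢ[ℂ] HH) (x : WeakDual ℂ HH) : WeakDual ℂ HH :=
  StrongDual.toWeakDual ((WeakDual.toStrongDual x).comp
    (V.toContinuousLinearEquiv : HH →L[ℂ] HH))

lemma act_apply (V : HH ≃ₗᵢ[ℂ] HH) (x : WeakDual ℂ HH) (h : HH) : act V x h = x (V h) := rfl

lemma act_mem (V : HH ≃ₗᵢ[ℂ] HH) (x : WeakDual ℂ HH) (hx : x ∈ ballW) : act V x ∈ ballW := by
  rw [mem_ballW] at hx ⊢
  refine ContinuousLinearMap.opNorm_le_bound _ zero_le_one fun h => ?_
  have h1 := (WeakDual.toStrongDual x).le_of_opNorm_le hx (V h)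
  rw [V.norm_map] at h1
  exact h1

lemma act_continuous (V : HH ≃ₗᵢ[ℂ] HH) : Continuous (act V) :=
  WeakDual.continuous_of_continuous_eval fun h => by
    simp only [act_apply]
    exact WeakDual.eval_continuous (V h)

/-- The homeomorphism of the ball. -/
def TT : ballW ≃ₜ ballW where
  toFun x := ⟨act UU.symm x, act_mem _ _ x.2⟩
  invFun x := ⟨act UU x, act_mem _ _ x.2⟩
  left_inv x := by
    apply Subtype.ext
    apply DFunLike.ext
    intro h
    simp [act_apply]
  right_inv x := by
    apply Subtype.ext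
    apply DFunLike.ext
    intro h
    simp [act_apply]
  continuous_toFun := ((act_continuous UU.symm).comp continuous_subtype_val).subtype_mk _
  continuous_invFun := ((act_continuous UU).comp continuous_subtype_val).subtype_mk _

lemma TT_apply (x : ballW) (h : HH) : (TT x : WeakDual ℂ HH) h = (x : WeakDual ℂ HH) (UU.symm h) :=
  rfl

/-- The representation of the ball. -/
def alpha (x : ballW) : HH :=
  (InnerProductSpace.toDual ℂ HH).symm (WeakDual.toStrongDual (x : WeakDual ℂ HH))

lemma inner_alpha (x : ballW) (h : HH) : inner ℂ (alpha x) h = (x : WeakDual ℂ HH) h := by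
  rw [alpha, InnerProductSpace.toDual_symm_apply]
  rfl

lemma alpha_injective : Function.Injective alpha := by
  intro x y h
  apply Subtype.ext
  apply DFunLike.ext
  intro v
  rw [← inner_alpha, ← inner_alpha, h]

lemma norm_alpha_le (x : ballW) : ‖alpha x‖ ≤ 1 := by
  rw [alpha, LinearIsometryEquiv.norm_map]
  exact (mem_ballW _).1 x.2

lemma alpha_TT (x : ballW) : alpha (TT x) = UU (alpha x) := by
  refine ext_inner_right ℂ fun v => ?_
  rw [inner_alpha, TT_apply, ← inner_alpha, ← LinearIsometryEquiv.inner_map_map UU (alpha x),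
    LinearIsometryEquiv.apply_symm_apply]

lemma alpha_continuous (v : HH) : Continuous fun x : ballW => inner ℂ v (alpha x) := by
  have : (fun x : ballW => inner ℂ v (alpha x)) = fun x : ballW => conj ((x : WeakDual ℂ HH) v) := by
    funext x
    rw [← inner_alpha, inner_conj_symm]
  rw [this]
  exact Complex.continuous_conj.comp
    ((WeakDual.eval_continuous v).comp continuous_subtype_val)

/-- bump function around `cc` -/
def bump (ζ : ℂ) : ℝ := max 0 (1 - ‖ζ - (cc : ℂ)‖ / (cc - cc ^ 2))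

lemma gap_pos : 0 < cc - cc ^ 2 := by nlinarith [cc_pos, cc_lt_one]

lemma bump_continuous : Continuous bump := by
  unfold bump
  fun_prop

lemma bump_cc : bump (cc : ℂ) = 1 := by simp [bump]

lemma bump_far {ζ : ℂ} (h : cc - cc ^ 2 ≤ ‖ζ - (cc : ℂ)‖) : bump ζ = 0 := by
  have : 1 ≤ ‖ζ - (cc : ℂ)‖ / (cc - cc ^ 2) := by
    rw [le_div_iff₀ gap_pos]; linarith
  simp [bump, this]

lemma bump_small {t : ℝ} (h : |t| ≤ 1) : bump ((cc ^ 2 * t : ℝ) : ℂ) = 0 := by
  apply bump_far
  rw [← Complex.ofReal_sub, Complex.norm_real, Real.norm_eq_abs]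
  have h1 := (abs_le.1 h).2
  have h2 : cc ^ 2 * t ≤ cc ^ 2 := by nlinarith [sq_nonneg cc]
  rw [abs_sub_comm]
  refine le_trans ?_ (le_abs_self _)
  linarith

/-- The continuous function on the ball. -/
def FF (x : ballW) : ℝ := bump ((x : WeakDual ℂ HH) (orb 0))

lemma FF_continuous : Continuous FF :=
  bump_continuous.comp ((WeakDual.eval_continuous (orb 0)).comp continuous_subtype_val)

/-- The functional given by a multiple of the base vector. -/
def pt (t : ℝ) (ht : |t| ≤ 1) : ballW :=
  ⟨StrongDual.toWeakDual (InnerProductSpace.toDual ℂ HH ((t : ℂ) • orb 0)), by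
    rw [mem_ballW]
    change ‖InnerProductSpace.toDual ℂ HH ((t : ℂ) • orb 0)‖ ≤ 1
    rw [LinearIsometryEquiv.norm_map, norm_smul, norm_orb, mul_one, Complex.norm_real]
    exact ht⟩

lemma pt_apply (t : ℝ) (ht : |t| ≤ 1) (n : ℤ) :
    (pt t ht : WeakDual ℂ HH) (orb n) = ((t * phi n : ℝ) : ℂ) := by
  change inner ℂ ((t : ℂ) • orb 0) (orb n) = _
  rw [inner_smul_left, inner_orb]
  simp

end

end Pool.Agent.Helper393.HilbertSys
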