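import Mathlib
import Pool.Agent.Helper393.Sys

open Filter Topology ComplexConjugate

namespace Pool.Agent.Helper393.HilbertSys

noncomputable section

/-- shift of two-sided real sequences -/
def shiftH : (ℤ → ℝ) ≃ₜ (ℤ → ℝ) where
  toFun g m := g (m + 1)
  invFun g m := g (m - 1)
  left_inv g := by funext m; simp
  right_inv g := by funext m; simp
  continuous_toFun := by fun_prop
  continuous_invFun := by fun_prop

lemma shiftH_apply (g : ℤ → ℝ) (m : ℤ) : shiftH g m = g (m + 1) := rfl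

lemma shiftH_symm_apply (g : ℤ → ℝ) (m : ℤ) : shiftH.symm g m = g (m - 1) := rfl

lemma shiftH_iter (n : ℕ) (g : ℤ → ℝ) (m : ℤ) : (shiftH^[n] g) m = g (m + n) := by
  induction n generalizing g m with
  | zero => simp
  | succ n ih =>
    rw [Function.iterate_succ_apply, ih, shiftH_apply]
    push_cast
    ring_nf

lemma shiftH_symm_iter (n : ℕ) (g : ℤ → ℝ) (m : ℤ) : (shiftH.symm^[n] g) m = g (m - n) := by
  induction n generalizing g m with
  | zero => simp
  | succ n ih =>
    rw [Function.iterate_succ_apply, ih, shiftH_symm_apply]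
    push_cast
    ring_nf

/-- The factor map of the ball onto a subshift. -/
def piX (x : ballW) (n : ℤ) : ℝ := bump ((x : WeakDual ℂ HH) (orb (-n)))

lemma piX_continuous : Continuous piX := by
  refine continuous_pi fun n => ?_
  exact bump_continuous.comp ((WeakDual.eval_continuous (orb (-n))).comp continuous_subtype_val)

lemma piX_TT (x : ballW) : piX (TT x) = shiftH (piX x) := by
  funext n
  rw [shiftH_apply, piX, piX, TT_apply, UU_symm_orb]
  congr 3
  ring

/-- The limit point. -/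
def zz (n : ℤ) : ℝ := bump ((cc * phi n : ℝ) : ℂ)

/-- The function. -/
def ff (n : ℤ) : ℝ := bump ((phi n : ℝ) : ℂ)

lemma abs_cc_le : |cc| ≤ 1 := by rw [abs_of_pos cc_pos]; exact cc_lt_one.le

lemma piX_pt (t : ℝ) (ht : |t| ≤ 1) (n : ℤ) : piX (pt t ht) n = bump ((t * phi n : ℝ) : ℂ) := by
  rw [piX, pt_apply]
  push_cast
  rw [phi_neg]

lemma piX_one : piX (pt 1 (by simp)) = ff := by
  funext n
  rw [piX_pt, one_mul]; rfl

lemma piX_cc : piX (pt cc abs_cc_le) = zz := by
  funext n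
  rw [piX_pt]; rfl

lemma piX_zero : piX (pt 0 (by simp)) = 0 := by
  funext n
  rw [piX_pt]
  have := bump_small (t := 0) (by simp)
  simpa using this

lemma zz_zero : zz 0 = 1 := by
  rw [zz, Int.cast_zero, phi_zero, mul_one, bump_cc]

lemma tendsto_ff : Tendsto (fun k : ℕ => shiftH^[8 ^ k] ff) atTop (𝓝 zz) := by
  rw [tendsto_pi_nhds]
  intro m
  have h := tendsto_phi_shift m
  have h2 := (bump_continuous.tendsto _).comp ((Complex.continuous_ofReal.tendsto _).comp h)
  refine h2.congr fun k => ?_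
  rw [shiftH_iter]
  simp only [Function.comp_apply, ff]
  push_cast
  rfl

lemma tendsto_zz : Tendsto (fun k : ℕ => shiftH.symm^[8 ^ k] zz) atTop (𝓝 0) := by
  rw [tendsto_pi_nhds]
  intro m
  have h := (tendsto_phi_shift_neg m).const_mul cc
  have h2 := (bump_continuous.tendsto _).comp ((Complex.continuous_ofReal.tendsto _).comp h)
  have h3 : bump ((cc * (cc * phi m) : ℝ) : ℂ) = (0 : ℤ → ℝ) m := by
    rw [show cc * (cc * phi m) = cc ^ 2 * phi m by ring, bump_small (abs_phi_le _)]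
    rfl
  rw [h3] at h2
  refine h2.congr fun k => ?_
  rw [shiftH_symm_iter]
  simp only [Function.comp_apply, zz]
  push_cast
  rfl

/-- No closed subshift containing `ff`, `zz`, `0` is Hilbert representable. -/
lemma not_rep {𝕜 : Type*} [RCLike 𝕜] {Y : Set (ℤ → ℝ)} (S : Y ≃ₜ Y)
    (hS : ∀ y : Y, (S y : ℤ → ℝ) = shiftH (y : ℤ → ℝ)) (hf : ff ∈ Y) (hz : zz ∈ Y)
    (h0 : (0 : ℤ → ℝ) ∈ Y)
    {H : Type*} [NormedAddCommGroup H] [InnerProductSpace 𝕜 H]
    (U : H ≃ₗᵢ[𝕜] H) (g : Y → H) (hi : Function.Injective g) (hg : ∀ y, g (S y) = U (g y))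
    (hc : ∀ v : H, Continuous fun y => inner 𝕜 v (g y)) : False := by
  have hSs : ∀ y : Y, (S.symm y : ℤ → ℝ) = shiftH.symm (y : ℤ → ℝ) := by
    intro y
    rw [Homeomorph.eq_symm_apply, ← hS, Homeomorph.apply_symm_apply]
  have h1 : Tendsto (fun k : ℕ => S^[8 ^ k] ⟨ff, hf⟩) atTop (𝓝 ⟨zz, hz⟩) := by
    rw [tendsto_subtype_rng]
    refine tendsto_ff.congr fun k => ?_
    exact (rep_iter (U := shiftH) S Subtype.val hS (8 ^ k) ⟨ff, hf⟩).symm
  have h2 : Tendsto (fun k : ℕ => S.symm^[8 ^ k] ⟨zz, hz⟩) atTop (𝓝 ⟨0, h0⟩) := by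
    rw [tendsto_subtype_rng]
    refine tendsto_zz.congr fun k => ?_
    exact (rep_iter (U := shiftH.symm) S.symm Subtype.val hSs (8 ^ k) ⟨zz, hz⟩).symm
  have h3 : S ⟨0, h0⟩ = ⟨0, h0⟩ := by
    apply Subtype.ext
    rw [hS]
    funext m
    rfl
  have h4 := rep_collapse S h1 h2 h3 U g hg hc
  have h5 := congrArg Subtype.val (hi h4)
  have h6 := congrFun h5 0
  simp only [zz_zero, Pi.zero_apply, one_ne_zero] at h6

/-- The main construction, for the factor problem. -/
theorem main_factor : ∃ (X Y : Type) (_ : TopologicalSpace X) (_ : TopologicalSpace Y)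
    (_ : CompactSpace X) (_ : CompactSpace Y) (_ : TopologicalSpace.MetrizableSpace X)
    (_ : TopologicalSpace.MetrizableSpace Y) (T : X ≃ₜ X) (S : Y ≃ₜ Y) (π : X → Y),
    Continuous π ∧ Function.Surjective π ∧ (∀ x, π (T x) = S (π x)) ∧
    (∃ (H : Type) (_ : NormedAddCommGroup H) (_ : InnerProductSpace ℂ H) (_ : CompleteSpace H)
        (U : H ≃ₗᵢ[ℂ] H) (f : X → H),
        Function.Injective f ∧ (∀ x, ‖f x‖ ≤ 1) ∧ (∀ x, f (T x) = U (f x)) ∧
        ∀ v : H, Continuous (fun x => inner ℂ v (f x))) ∧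
    ¬ (∃ (H : Type) (_ : NormedAddCommGroup H) (_ : InnerProductSpace ℂ H) (_ : CompleteSpace H)
        (U : H ≃ₗᵢ[ℂ] H) (g : Y → H),
        Function.Injective g ∧ (∀ y, ‖g y‖ ≤ 1) ∧ (∀ y, g (S y) = U (g y)) ∧
        ∀ v : H, Continuous (fun y => inner ℂ v (g y))) := by
  have hmem : ∀ y : ℤ → ℝ, y ∈ Set.range piX ↔ shiftH y ∈ Set.range piX := by
    intro y
    constructor
    · rintro ⟨x, rfl⟩
      exact ⟨TT x, piX_TT x⟩
    · rintro ⟨x, hx⟩
      refine ⟨TT.symm x, ?_⟩
      apply shiftH.injective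
      rw [← piX_TT, Homeomorph.apply_symm_apply, hx]
  refine ⟨ballW, Set.range piX, inferInstance, inferInstance, inferInstance,
    isCompact_iff_compactSpace.1 (isCompact_range piX_continuous), inferInstance, inferInstance,
    TT, shiftH.subtype hmem, Set.rangeFactorization piX, ?_, ?_, ?_, ?_, ?_⟩
  · exact piX_continuous.rangeFactorization
  · exact Set.rangeFactorization_surjective
  · intro x
    apply Subtype.ext
    exact piX_TT x
  · exact ⟨HH, inferInstance, inferInstance, inferInstance, UU, alpha, alpha_injective,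
      norm_alpha_le, alpha_TT, alpha_continuous⟩
  · rintro ⟨H, _, _, _, U, g, hi, -, hg, hc⟩
    exact not_rep (shiftH.subtype hmem) (fun y => rfl) ⟨_, piX_one⟩ ⟨_, piX_cc⟩ ⟨_, piX_zero⟩
      U g hi hg hc

end

end Pool.Agent.Helper393.HilbertSys
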